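import Pool.Agent.H39.AbsBorel.All

/-!
The multiplication graph of every group of cardinality at most the continuum has class at most `2`
with respect to a suitable countable family of elementary sets.
-/

namespace Pool.Agent.Results.MP_23a294_lc.GroupClassTwo

open Pool.Agent.H39.AbsBorel

/-- For every group on a set `E` of cardinality at most the continuum there is a sequence
`A 0, A 1, …` of subsets of `E` with respect to which the graph of the multiplication is of class
`2`, and hence of class `3`. So no group on a set of cardinality the continuum has the property
asked for. -/
theorem result (E : Type) [Group E] (hE : Cardinal.mk E ≤ Cardinal.continuum) :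
    ∃ A : ℕ → Set E, mulGraph E ∈ Cls A 2 ∧ mulGraph E ∈ Cls A 3 := by
  obtain ⟨A, hA⟩ := Pool.Agent.H39.AbsBorel.main E hE
  exact ⟨A, hA, Cls_succ hA⟩

end Pool.Agent.Results.MP_23a294_lc.GroupClassTwo
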